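import Pool.Agent.Lib.MP_c39626_al.Emb
import Pool.Agent.Lib.MP_c39626_al.Num
import Pool.Agent.Lib.MP_c39626_al.Graph

/-!
# MP_c39626_al: the soluble graph of a monolithic group with socle `A_p ^ k`

Let `p ≥ 11` be a prime, `k ≥ 2`, and let `G` be a finite group whose unique minimal normal
subgroup `N` is isomorphic to `A_p ^ k`. Let `P` be the group of permutations of the `k` simple
factors of `N` induced by `G`. If `P` contains the alternating group of degree `k` (any `k`), or
if some colouring of the `k` factors with `(p - 4)! / 4` colours and some `τ ∈ P` of odd order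
have the property that no nontrivial `π ∈ P` preserving the colouring generates a soluble group
together with `τ` (for `τ = 1`: no nontrivial element of `P` preserves the colouring, which is
automatic for `k ≤ (p - 4)! / 4`), then the soluble graph of `G` has diameter at least `3`.

* `solubleGraph G`: the soluble graph.
* `factor N e i`: the `i`-th factor of `N`, as a subset of `G`.
* `Induces N e g σ`: conjugation by `g` maps the factor `i` into the factor `σ i`, for all `i`.
-/

namespace Pool.Agent.Results.MP_c39626_al.AlternatingSocle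

open Sgd

theorem result (p : ℕ) [Fact p.Prime] (hp : 11 ≤ p) (k : ℕ) (hk : 2 ≤ k)
    {G : Type*} [Group G] [Finite G] (N : Subgroup G) [N.Normal]
    (hN : ∀ M : Subgroup G, M.Normal → M ≠ ⊥ → N ≤ M)
    (e : N ≃* (Fin k → alternatingGroup (ZMod p)))
    (hP : (∀ σ : Equiv.Perm (Fin k), Equiv.Perm.sign σ = 1 → ∃ g, Induces N e g σ) ∨
      ∃ (χ : Fin k → Fin ((p - 4).factorial / 4)) (g₀ : G) (τ : Equiv.Perm (Fin k)),
        Induces N e g₀ τ ∧ Odd (orderOf τ) ∧
          ∀ (g : G) (π : Equiv.Perm (Fin k)), Induces N e g π → (∀ i, χ (π i) = χ i) →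
            Group.IsSolvable (Subgroup.closure ({τ, π} : Set (Equiv.Perm (Fin k)))) → π = 1) :
    3 ≤ (solubleGraph G).ediam := by
  classical
  have hprime : p.Prime := Fact.out
  have hne : Nonempty (Fin k) := ⟨⟨0, by omega⟩⟩
  -- the centraliser of `N` is trivial
  have hcent : ∀ g : G, (∀ n ∈ N, g * n = n * g) → g = 1 := by
    intro g hg
    by_contra hg1
    have h1 : g ∈ Subgroup.centralizer (N : Set G) := by
      rw [Subgroup.mem_centralizer_iff]
      intro n hn
      exact (hg n hn).symm
    have h2 : Subgroup.centralizer (N : Set G) ≠ ⊥ := by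
      intro h
      rw [h, Subgroup.mem_bot] at h1
      exact hg1 h1
    have h3 := hN _ inferInstance h2
    have hnt : Nontrivial (alternatingGroup (ZMod p)) :=
      alternatingGroup.nontrivial_of_three_le_card (α := ZMod p) (by rw [Nat.card_zmod]; omega)
    -- `A_p` would be abelian
    have h4 : ∀ a b : alternatingGroup (ZMod p), a * b = b * a := by
      intro a b
      have h5 := Subgroup.mem_centralizer_iff.1
        (h3 (e.symm (fun _ => a)).2) (e.symm (fun _ => b)) (e.symm (fun _ => b)).2
      have h6 : e.symm (fun _ => b) * e.symm (fun _ => a) =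
          e.symm (fun _ => a) * e.symm (fun _ => b) := Subtype.ext h5
      rw [← map_mul, ← map_mul] at h6
      have h7 := congrFun (e.symm.injective h6) ⟨0, by omega⟩
      exact h7.symm
    have h5 := (alternatingGroup.center_eq_bot (α := ZMod p) (by rw [Nat.card_zmod]; omega))
    obtain ⟨t, ht⟩ := exists_ne (1 : alternatingGroup (ZMod p))
    apply ht
    have h6 : t ∈ Subgroup.center (alternatingGroup (ZMod p)) :=
      Subgroup.mem_center_iff.2 (fun g => h4 g t)
    rw [h5, Subgroup.mem_bot] at h6
    exact h6
  -- the labels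
  obtain ⟨lab, hlab⟩ := exists_labels (p := p) ((p - 4).factorial / 4)
    (num_ineq p hprime hp) (by omega)
  -- the pair
  obtain ⟨x, y, hx, hy, hxy⟩ : ∃ x y : G, x ≠ 1 ∧ y ≠ 1 ∧
      ∀ z : G, Sol x z → Sol y z → z = 1 := by
    rcases hP with hP | ⟨χ, g₀, τ, hg₀, hodd, hrig⟩
    · obtain ⟨τ, χ, m, h1, h2, h3, h4, h5, h6, h7⟩ := exists_rigid k (Fin k) (by simp)
      obtain ⟨g₀, hg₀⟩ := hP τ (sign_eq_one_of_odd h1 h2)
      have hL : 5 ≤ (p - 4).factorial / 4 := by
        have h8 : (7 : ℕ).factorial ≤ (p - 4).factorial := Nat.factorial_le (by omega)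
        have h9 : (7 : ℕ).factorial = 5040 := by decide
        omega
      refine main_pair (by omega) N e hcent lab hlab
        (fun i => ⟨χ i, (h4 i).trans_le hL⟩) g₀ τ hg₀ h1 h2 ?_
      intro g π _ hχ hs
      apply h7 π _ hs
      intro i
      have := hχ i
      simpa using this
    · exact main_pair (by omega) N e hcent lab hlab χ g₀ τ hg₀ hodd (pow_orderOf_eq_one τ)
        (fun g π hg hχ hs => hrig g π hg hχ hs)
  exact three_le_ediam x y hx hy hxy

end Pool.Agent.Results.MP_c39626_al.AlternatingSocle
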