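import Pool.Agent.Lib.MP_c39626_al.Gen3
import Pool.Agent.Lib.MP_c39626_al.Graph

/-!
# MP_c39626_al: the soluble graph of a monolithic group with socle `T ^ k`, `T` any simple group

Let `T` be a finite non-abelian simple group and `G` a finite group whose unique minimal normal
subgroup `N` is isomorphic to `T ^ k`, `k ≥ 2`. Let `A` be a subgroup of `Aut(T)` containing the
maps between the coordinates of `N ≅ T ^ k` induced by the elements of `G` (`A = Aut(T)` is
allowed; `A = Inn(T)` for wreath products `T wr P`). Let `(x j, y j)`, `j ∈ κ`, be pairs of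
elements of `T` which have no common neighbour in `A` (`h1`) and are separated from each other
over `A` (`h2`). Let `χ` be a colouring of the `k` factors with colours in `κ` and let `g`, `g'`
be elements of `G` inducing the permutations `τ`, `τ'` of the factors, such that the powers of
`g` induce inner automorphisms on the factors which they fix and `g` maps the cyclic subgroup
`⟨x (χ i)⟩` of the factor `i` to a conjugate of the subgroup `⟨x (χ (τ i))⟩` of the factor `τ i`,
and the same for `g'`, `τ'`, `y` (for instance `g = g' = 1`). If the only permutation of the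
factors induced by `G` which preserves `χ` and generates soluble groups with both `τ` and `τ'` is
`1`, then the soluble graph of `G` has diameter at least `3`.

* `Sol a b`: the subgroup generated by `a` and `b` is soluble.
* `solubleGraph G`: the soluble graph.
* `Induces N e g σ`: conjugation by `g` maps the factor `i` into the factor `σ i`, for all `i`.
* `Gen.Acts N e g i j ζ`: the `j`-th coordinate of `g n g⁻¹` is `ζ` of the `i`-th coordinate of
  `n`, for all `n ∈ N`.
-/

namespace Pool.Agent.Results.MP_c39626_al.AnySocle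

open Sgd

theorem result {T : Type*} [Group T] [Finite T] [IsSimpleGroup T]
    (hT : ∃ a b : T, a * b ≠ b * a)
    {κ : Type*} (x y : κ → T) (A : Subgroup (MulAut T))
    (h1 : ∀ j, ∀ a ∈ A, Sol (MulAut.conj (x j)) a → Sol (MulAut.conj (y j)) a → a = 1)
    (h2 : ∀ i j, i ≠ j → ∀ a ∈ A, Sol (x j) (a (x i)) → ¬ Sol (y j) (a (y i)))
    (k : ℕ) (hk : 2 ≤ k) {G : Type*} [Group G] [Finite G] (N : Subgroup G) [N.Normal]
    (hN : ∀ M : Subgroup G, M.Normal → M ≠ ⊥ → N ≤ M) (e : N ≃* (Fin k → T))
    (hA : ∀ (g : G) (i j : Fin k) (ζ : MulAut T), Gen.Acts N e g i j ζ → ζ ∈ A)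
    (χ : Fin k → κ) (g g' : G) (τ τ' : Equiv.Perm (Fin k))
    (hg : Induces N e g τ) (hg' : Induces N e g' τ')
    (hgi : ∀ (m : ℕ) (i : Fin k) (ζ : MulAut T), Gen.Acts N e (g ^ m) i i ζ →
      ∃ s : T, ζ = MulAut.conj s)
    (hgi' : ∀ (m : ℕ) (i : Fin k) (ζ : MulAut T), Gen.Acts N e (g' ^ m) i i ζ →
      ∃ s : T, ζ = MulAut.conj s)
    (hgx : ∀ (i : Fin k) (ζ : MulAut T), Gen.Acts N e g i (τ i) ζ →
      ∃ s : T, Subgroup.zpowers (s * ζ (x (χ i)) * s⁻¹) = Subgroup.zpowers (x (χ (τ i))))
    (hgy : ∀ (i : Fin k) (ζ : MulAut T), Gen.Acts N e g' i (τ' i) ζ →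
      ∃ s : T, Subgroup.zpowers (s * ζ (y (χ i)) * s⁻¹) = Subgroup.zpowers (y (χ (τ' i))))
    (hrig : ∀ (h : G) (π : Equiv.Perm (Fin k)), Induces N e h π → (∀ i, χ (π i) = χ i) →
      Sol τ π → Sol τ' π → π = 1) :
    3 ≤ (solubleGraph G).ediam := by
  classical
  -- the centraliser of `N` is trivial
  have hcent : ∀ g : G, (∀ n ∈ N, g * n = n * g) → g = 1 := by
    intro g hg
    by_contra hg1
    have h1 : g ∈ Subgroup.centralizer (N : Set G) := by
      rw [Subgroup.mem_centralizer_iff]
      intro n hn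
      exact (hg n hn).symm
    have h2 : Subgroup.centralizer (N : Set G) ≠ ⊥ := by
      intro h
      rw [h, Subgroup.mem_bot] at h1
      exact hg1 h1
    have h3 := hN _ inferInstance h2
    obtain ⟨a, b, hab⟩ := hT
    apply hab
    have h5 := Subgroup.mem_centralizer_iff.1
      (h3 (e.symm (fun _ => a)).2) (e.symm (fun _ => b)) (e.symm (fun _ => b)).2
    have h6 : e.symm (fun _ => b) * e.symm (fun _ => a) =
        e.symm (fun _ => a) * e.symm (fun _ => b) := Subtype.ext h5
    rw [← map_mul, ← map_mul] at h6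
    have h7 := congrFun (e.symm.injective h6) ⟨0, by omega⟩
    exact h7.symm
  have hτ : Gen.top N e hT g = τ := induces_unique N e (Gen.induces_top hT g) hg
  have hτ' : Gen.top N e hT g' = τ' := induces_unique N e (Gen.induces_top hT g') hg'
  obtain ⟨X, hX1, hX2⟩ := Gen.exists_lift2 (N := N) (e := e) hT x χ g hgi
    (by rw [hτ]; exact hgx)
  obtain ⟨Y, hY1, hY2⟩ := Gen.exists_lift2 (N := N) (e := e) hT y χ g' hgi'
    (by rw [hτ']; exact hgy)
  have key : ∀ z : G, Sol X z → Sol Y z → z = 1 := by
    intro z h3 h4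
    obtain ⟨h5, h6, h7, h8⟩ := Gen.core hT hcent x y A hA h1
      (fun i j hij a ha hs hs' => h2 i j hij a ha hs hs') χ X Y hX2 hY2 z h3 h4
    rw [hX1, hτ] at h6
    rw [hY1, hτ'] at h7
    exact h8 (hrig z _ (Gen.induces_top hT z) h5 h6 h7)
  have hnt : ∃ z : G, z ≠ 1 := by
    obtain ⟨a, b, hab⟩ := hT
    by_contra hcon
    push Not at hcon
    apply hab
    have h3 : e.symm (fun _ => a) = e.symm (fun _ => 1) :=
      Subtype.ext ((hcon _).trans (hcon _).symm)
    have h4 := congrFun (e.symm.injective h3) ⟨0, by omega⟩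
    have h5 : a = 1 := h4
    rw [h5, one_mul, mul_one]
  obtain ⟨z₀, hz₀⟩ := hnt
  have hself : ∀ a b : G, a = 1 → Sol a b := by
    rintro a b rfl
    show Group.IsSolvable (Subgroup.closure ({1, b} : Set G))
    rw [Subgroup.closure_insert_one, ← Subgroup.zpowers_eq_closure]
    exact solvable_zpowers b
  have hself' : ∀ a : G, Sol a a := by
    intro a
    show Group.IsSolvable (Subgroup.closure ({a, a} : Set G))
    rw [Set.pair_eq_singleton, ← Subgroup.zpowers_eq_closure]
    exact solvable_zpowers a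
  have hYX : X = 1 → Y = 1 := fun h => key Y (hself X Y h) (hself' Y)
  have hXY : Y = 1 → X = 1 := fun h => key X (hself' X) (hself Y X h)
  have hX0 : X ≠ 1 := fun h => hz₀ (key z₀ (hself X z₀ h) (hself Y z₀ (hYX h)))
  have hY0 : Y ≠ 1 := fun h => hX0 (hXY h)
  exact three_le_ediam X Y hX0 hY0 key

end Pool.Agent.Results.MP_c39626_al.AnySocle
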